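import Pool.Agent.Helper83.HL.St

/-!
Module F of project HL (MP_8be7de_nt): a positive proportion of the integers up to `m ^ k` is
`m`-smooth.
-/

set_option autoImplicit false

namespace Pool.Agent.Helper40.HL

open _root_.Pool.Agent.Helper83.HL Classical Finset

/-- the `m`-smooth integers in `[1, N]` -/
noncomputable def SM (N m : ℕ) : Finset ℕ :=
  (Icc 1 N).filter (fun n => ∀ p : ℕ, p.Prime → p ∣ n → p ≤ m)

lemma psi_eq (N m : ℕ) : Psi N m = (SM N m).card := rfl

/-- the primes `p ≤ m` with `m < p ^ A` -/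
noncomputable def PM (A m : ℕ) : Finset ℕ :=
  (Icc 1 m).filter (fun p => p.Prime ∧ m < p ^ A)

lemma psi_small {N m : ℕ} (h : N ≤ m) : Psi N m = N := by
  rw [psi_eq]
  have h1 : SM N m = Icc 1 N := by
    unfold SM
    apply filter_true_of_mem
    intro n hn p _ hpn
    rw [mem_Icc] at hn
    exact (Nat.le_of_dvd (by omega) hpn).trans (hn.2.trans h)
  rw [h1, Nat.card_Icc]
  omega

/-- the smooth multiples of `p` -/
lemma card_mul {N m p : ℕ} (hp : p.Prime) (hpm : p ≤ m) :
    Psi (N / p) m ≤ ((SM N m).filter (fun n => p ∣ n)).card := by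
  rw [psi_eq]
  apply card_le_card_of_injOn (fun n => p * n)
  · intro n hn
    rw [mem_coe] at hn
    unfold SM at hn
    rw [mem_filter, mem_Icc] at hn
    obtain ⟨⟨h1, h2⟩, h3⟩ := hn
    rw [mem_coe, mem_filter]
    refine ⟨?_, dvd_mul_right p n⟩
    unfold SM
    rw [mem_filter, mem_Icc]
    refine ⟨⟨?_, ?_⟩, ?_⟩
    · exact Nat.mul_pos hp.pos (by omega)
    · calc p * n ≤ p * (N / p) := Nat.mul_le_mul_left _ h2
        _ ≤ N := Nat.mul_div_le N p
    · intro r hr hrd
      rcases (Nat.Prime.dvd_mul hr).1 hrd with h4 | h4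
      · rw [(Nat.prime_dvd_prime_iff_eq hr hp).1 h4]; exact hpm
      · exact h3 r hr h4
  · intro a _ b _ hab
    exact Nat.eq_of_mul_eq_mul_left hp.pos hab

/-- an integer `n ≥ 1` with `n ^ A ≤ m ^ s` has at most `s` prime divisors in `PM A m` -/
lemma card_div {A m s n : ℕ} (hm : 2 ≤ m) (hn : 1 ≤ n) (hns : n ^ A ≤ m ^ s) :
    ((PM A m).filter (fun p => p ∣ n)).card ≤ s := by
  set T := (PM A m).filter (fun p => p ∣ n) with hT
  have hTp : ∀ p ∈ T, p.Prime ∧ m < p ^ A ∧ p ∣ n := by
    intro p hp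
    rw [hT, mem_filter] at hp
    unfold PM at hp
    rw [mem_filter] at hp
    exact ⟨hp.1.2.1, hp.1.2.2, hp.2⟩
  have h1 : ∏ p ∈ T, p ∣ n := by
    apply Finset.prod_primes_dvd
    · intro p hp
      exact (hTp p hp).1.prime
    · intro p hp
      exact (hTp p hp).2.2
  have h2 : ∏ p ∈ T, p ≤ n := Nat.le_of_dvd (by omega) h1
  have h3 : m ^ T.card ≤ (∏ p ∈ T, p) ^ A := by
    rw [← Finset.prod_pow]
    calc m ^ T.card = ∏ _p ∈ T, m := by rw [prod_const]
      _ ≤ ∏ p ∈ T, p ^ A := prod_le_prod' fun p hp => (hTp p hp).2.1.le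
  have h4 : m ^ T.card ≤ m ^ s := h3.trans ((Nat.pow_le_pow_left h2 A).trans hns)
  exact (Nat.pow_le_pow_iff_right (by omega)).1 h4

/-- double counting -/
lemma count {A m s N : ℕ} (hm : 2 ≤ m) (hNs : N ^ A ≤ m ^ s) :
    ∑ p ∈ PM A m, Psi (N / p) m ≤ s * Psi N m := by
  calc ∑ p ∈ PM A m, Psi (N / p) m
      ≤ ∑ p ∈ PM A m, ((SM N m).filter (fun n => p ∣ n)).card := by
        apply sum_le_sum
        intro p hp
        unfold PM at hp
        rw [mem_filter, mem_Icc] at hp
        exact card_mul hp.2.1 hp.1.2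
    _ = ∑ n ∈ SM N m, ((PM A m).filter (fun p => p ∣ n)).card := by
        simp_rw [card_filter]
        rw [sum_comm]
    _ ≤ ∑ _n ∈ SM N m, s := by
        apply sum_le_sum
        intro n hn
        unfold SM at hn
        rw [mem_filter, mem_Icc] at hn
        exact card_div hm hn.1.1 ((Nat.pow_le_pow_left hn.1.2 A).trans hNs)
    _ = s * Psi N m := by
        rw [sum_const, smul_eq_mul, mul_comm, psi_eq]

theorem mF : StF1 → StF := by
  rintro ⟨A, m₀, hA, hF⟩ k
  have hm2 : ∀ m : ℕ, m₀ ≤ m → 2 ≤ m := by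
    intro m hm
    by_contra hcon
    have h1 := hF m hm
    have h2 : (Finset.Icc 1 m).filter (fun p => p.Prime ∧ m < p ^ A) = ∅ := by
      apply filter_eq_empty_iff.2
      intro p hp hpp
      rw [mem_Icc] at hp
      have := hpp.1.two_le
      omega
    rw [h2, sum_empty] at h1
    norm_num at h1
  have key : ∀ j : ℕ, ∃ c : ℝ, 0 < c ∧ c ≤ 1 ∧ ∀ m : ℕ, m₀ ≤ m → ∀ N : ℕ, 1 ≤ N →
      N ^ A ≤ m ^ (A + j) → c * N ≤ Psi N m := by
    intro j
    induction j with
    | zero =>
      refine ⟨1, one_pos, le_rfl, fun m hm N hN hNm => ?_⟩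
      have h1 : N ≤ m := (Nat.pow_le_pow_iff_left (show A ≠ 0 by omega)).1 hNm
      rw [psi_small h1, one_mul]
    | succ j ih =>
      obtain ⟨c, hc0, hc1, hc⟩ := ih
      have hs : (0 : ℝ) < 2 * ((A + (j + 1) : ℕ) : ℝ) := by
        have : (0 : ℝ) < ((A + (j + 1) : ℕ) : ℝ) := by exact_mod_cast (by omega)
        linarith
      have hs1 : (1 : ℝ) ≤ 2 * ((A + (j + 1) : ℕ) : ℝ) := by
        have : (1 : ℝ) ≤ ((A + (j + 1) : ℕ) : ℝ) := by exact_mod_cast (by omega)
        linarith
      refine ⟨c / (2 * ((A + (j + 1) : ℕ) : ℝ)), div_pos hc0 hs, ?_, ?_⟩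
      · rw [div_le_one hs]
        linarith
      · intro m hm N hN hNm
        have hm2' := hm2 m hm
        by_cases hNle : N ≤ m
        · rw [psi_small hNle]
          have h1 : c / (2 * ((A + (j + 1) : ℕ) : ℝ)) ≤ 1 := by
            rw [div_le_one hs]
            linarith
          have h2 : (0 : ℝ) ≤ N := Nat.cast_nonneg N
          nlinarith
        · have hNm' : m < N := lt_of_not_ge hNle
          have h1 := count (A := A) hm2' hNm
          have h2 : ∀ p ∈ PM A m, c * N / 2 * (1 / (p : ℝ)) ≤ (Psi (N / p) m : ℝ) := by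
            intro p hp
            unfold PM at hp
            rw [mem_filter, mem_Icc] at hp
            obtain ⟨⟨hp1, hpm⟩, hpp, hpA⟩ := hp
            have hM1 : 1 ≤ N / p := (Nat.one_le_div_iff (by omega)).2 (by omega)
            have hMA : (N / p) ^ A ≤ m ^ (A + j) := by
              have h3 : (N / p) ^ A * m ≤ m ^ (A + j) * m := by
                calc (N / p) ^ A * m ≤ (N / p) ^ A * p ^ A :=
                      Nat.mul_le_mul_left _ hpA.le
                  _ = (N / p * p) ^ A := (mul_pow _ _ _).symm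
                  _ ≤ N ^ A := Nat.pow_le_pow_left (Nat.div_mul_le_self N p) A
                  _ ≤ m ^ (A + (j + 1)) := hNm
                  _ = m ^ (A + j) * m := by rw [← add_assoc, pow_succ]
              exact Nat.le_of_mul_le_mul_right h3 (by omega)
            have h4 := hc m hm (N / p) hM1 hMA
            have h5 : (N : ℝ) / (2 * p) ≤ ((N / p : ℕ) : ℝ) := by
              have hp0 : (0 : ℝ) < p := by exact_mod_cast hpp.pos
              rw [div_le_iff₀ (by linarith)]
              have h6 : N < 2 * (N / p) * p := by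
                have h7 : N < p * (N / p + 1) := Nat.lt_mul_div_succ N hpp.pos
                nlinarith
              have h8 : (N : ℝ) < 2 * ((N / p : ℕ) : ℝ) * p := by exact_mod_cast h6
              linarith
            calc c * N / 2 * (1 / (p : ℝ)) = c * ((N : ℝ) / (2 * p)) := by
                  have hp0 : (p : ℝ) ≠ 0 := by exact_mod_cast hpp.ne_zero
                  field_simp
              _ ≤ c * ((N / p : ℕ) : ℝ) := mul_le_mul_of_nonneg_left h5 hc0.le
              _ ≤ _ := h4
          have h3 : c * N / 2 ≤ ∑ p ∈ PM A m, (Psi (N / p) m : ℝ) := by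
            have h4 : c * N / 2 * 1 ≤ c * N / 2 * ∑ p ∈ PM A m, (1 / (p : ℝ)) := by
              apply mul_le_mul_of_nonneg_left (hF m hm)
              positivity
            calc c * N / 2 = c * N / 2 * 1 := by ring
              _ ≤ c * N / 2 * ∑ p ∈ PM A m, (1 / (p : ℝ)) := h4
              _ = ∑ p ∈ PM A m, c * N / 2 * (1 / (p : ℝ)) := by rw [mul_sum]
              _ ≤ _ := sum_le_sum h2
          have h5 : (∑ p ∈ PM A m, (Psi (N / p) m : ℝ))
              ≤ ((A + (j + 1) : ℕ) : ℝ) * (Psi N m : ℝ) := by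
            exact_mod_cast h1
          rw [div_mul_eq_mul_div, div_le_iff₀ hs]
          linarith
  obtain ⟨c, hc0, -, hc⟩ := key (A * k)
  refine ⟨c, hc0, m₀, fun m hm N hN hNm => hc m hm N hN ?_⟩
  have hm2' := hm2 m hm
  calc N ^ A ≤ (m ^ k) ^ A := Nat.pow_le_pow_left hNm A
    _ = m ^ (A * k) := by rw [← pow_mul, mul_comm]
    _ ≤ m ^ (A + A * k) := Nat.pow_le_pow_right (by omega) (by omega)

end Pool.Agent.Helper40.HL
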